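import Pool.Agent.Helper70.GUM.St1

/-!
# Project GUM (MP_0bd1d1_al), module STAR
-/

set_option autoImplicit false

namespace Pool.Agent.Helper69.GUM

open Pool.Agent.Helper70.GUM Module OG UN

universe u v w z

section aux

variable {R M : Type*} [CommRing R] [AddCommGroup M] [Module R M]

private theorem pow_mem_STAR (V : Submodule R M) (T : M →ₗ[R] M) (hT : ∀ f ∈ V, T f ∈ V) (j : ℕ) :
    ∀ f ∈ V, (T ^ j) f ∈ V := by
  induction j with
  | zero =>
    intro f hf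
    rw [pow_zero]
    exact hf
  | succ j ih =>
    intro f hf
    rw [pow_succ', Module.End.mul_apply]
    exact hT _ (ih f hf)

private theorem ZZ_app_STAR (q : ℕ) (T : M →ₗ[R] M) (f : M) :
    ZZ q T f = ∑ j ∈ Finset.range (q + 1), (j : R) • (T ^ j) f := by
  rw [ZZ, LinearMap.sum_apply]
  rfl

private theorem ZZ_mem_STAR (V : Submodule R M) (q : ℕ) (T : M →ₗ[R] M) (hT : ∀ f ∈ V, T f ∈ V)
    (f : M) (hf : f ∈ V) : ZZ q T f ∈ V := by
  rw [ZZ_app_STAR]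
  exact Submodule.sum_mem _ (fun j _ => Submodule.smul_mem _ _ (pow_mem_STAR V T hT j f hf))

private theorem pow_comm_STAR (S T : M →ₗ[R] M) (h : ∀ f, S (T f) = T (S f)) (j : ℕ) :
    ∀ f, S ((T ^ j) f) = (T ^ j) (S f) := by
  induction j with
  | zero =>
    intro f
    rw [pow_zero]
    rfl
  | succ j ih =>
    intro f
    rw [pow_succ', Module.End.mul_apply, Module.End.mul_apply, h, ih]

private theorem ZZ_comm_STAR (S T : M →ₗ[R] M) (h : ∀ f, S (T f) = T (S f)) (q : ℕ) (f : M) :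
    S (ZZ q T f) = ZZ q T (S f) := by
  rw [ZZ_app_STAR, ZZ_app_STAR, map_sum]
  refine Finset.sum_congr rfl (fun j _ => ?_)
  rw [map_smul, pow_comm_STAR S T h]

end aux

private theorem rot_cen_STAR {k : Type u} {F : Type v} [Field k] [Field F] [Algebra k F]
    {σ : F ≃ₐ[k] F} {hσ : QE σ} {x : F} (hx : x * σ x = 1) (g : Hei hσ) (t : F)
    (ht : t + σ t = 0) : rot x (cen hσ t * g) = cen hσ t * rot x g := by
  ext
  · rw [rot_a hx, Hei.mul_a, Hei.mul_a, rot_a hx, cen_a ht]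
    ring
  · rw [rot_c hx, Hei.mul_c, Hei.mul_c, rot_c hx, cen_a ht, cen_c ht, map_zero]
    ring

/-- STAR. -/
theorem hSTAR (hROT : StROT.{u, v, w, z}) (hRAD : StRAD.{u, v, w, z}) :
    StSTAR.{u, v, w, z} := by
  intro k F R K _ _ _ _ _ σ _ _ _ _ _ hσ χ r x hC hS hB hX hX' m hm
  have hLR : ∀ f ∈ Lam R K hσ χ, XR r (ep x 1) f ∈ Lam R K hσ χ := fun f hf =>
    ⟨hB.xrF _ f hf.1, hB.xrV _ _ f hf.2⟩
  have hLL : ∀ f ∈ Lam R K hσ χ, XL r (ep x 1) f ∈ Lam R K hσ χ := fun f hf =>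
    ⟨hB.xlF _ f hf.1, hB.xlV _ _ f hf.2⟩
  obtain ⟨y, hy⟩ : ∃ y, y = ZZ (Nat.card k) (XL r (ep x 1)) m := ⟨_, rfl⟩
  have hyL : y ∈ Lam R K hσ χ := by
    rw [hy]
    exact ZZ_mem_STAR _ _ _ hLL m hm
  obtain ⟨y', hy'⟩ : ∃ y', y' = ZZ (Nat.card k) (XR r (ep x 1)) y := ⟨_, rfl⟩
  have hyL' : y' ∈ Lam R K hσ χ := by
    rw [hy']
    exact ZZ_mem_STAR _ _ _ hLR y hyL
  have h1 : XL r (ep x 1) y - y = (((Nat.card k : ℕ) : R) + 1) • m := by
    rw [hy]
    exact hX'.zz m hm.1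
  have h2 : XR r (ep x 1) y' - y' = (((Nat.card k : ℕ) : R) + 1) • y := by
    rw [hy']
    exact hX.zz y hyL.1
  have hcom : ∀ f : Hei hσ → K,
      XL r (ep x 1) (XR r (ep x 1) f) = XR r (ep x 1) (XL r (ep x 1) f) :=
    fun f => (hB.xrxl _ _ f).symm
  have h3 : XL r (ep x 1) y' - y' =
      (((Nat.card k : ℕ) : R) + 1) • ZZ (Nat.card k) (XR r (ep x 1)) m := by
    rw [hy', ZZ_comm_STAR _ _ hcom, ← map_sub, h1, map_smul]
  have h4 : XL r (ep x 1) (XR r (ep x 1) y') = y' + (((Nat.card k : ℕ) : R) + 1) •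
      (ZZ (Nat.card k) (XR r (ep x 1)) m + XL r (ep x 1) y) := by
    have h5 : XR r (ep x 1) y' = y' + (((Nat.card k : ℕ) : R) + 1) • y := by
      rw [← h2]
      abel
    rw [h5, map_add, map_smul, smul_add, ← h3]
    abel
  obtain ⟨W, hW⟩ : ∃ W, W = ZZ (Nat.card k) (XR r (ep x 1)) m + XL r (ep x 1) y := ⟨_, rfl⟩
  have hWL : W ∈ Lam R K hσ χ := by
    rw [hW]
    exact Submodule.add_mem _ (ZZ_mem_STAR _ _ _ hLR m hm) (hLL y hyL)
  rw [← hW] at h4
  have hm1 : (fun g => -(W (rot x g))) ∈ Lam R K hσ χ := by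
    constructor
    · intro g t ht
      change -(W (rot x (cen hσ t * g))) = χ (-t) • -(W (rot x g))
      rw [rot_cen_STAR hC.xn g t ht, hWL.1 _ t ht, smul_neg]
    · intro g
      exact Submodule.neg_mem _ (hWL.2 _)
  have h6 : ∀ g, y' (rot x g) - y' g =
      (((Nat.card k : ℕ) : R) + 1) • (fun g => -(W (rot x g))) g := by
    intro g
    have h7 := hROT hσ hC hS hB y' hyL'.1 g
    rw [h4] at h7
    rw [← h7, Pi.add_apply, Pi.smul_apply]
    change y' (rot x g) - (y' (rot x g) + (((Nat.card k : ℕ) : R) + 1) • W (rot x g)) =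
      (((Nat.card k : ℕ) : R) + 1) • -(W (rot x g))
    rw [smul_neg]
    abel
  obtain ⟨r₀, m'', hm'', h8⟩ := hRAD hσ hC hS hB hX y' hyL' _ hm1 y hyL h6 h2
  refine ⟨r₀, m'', hm'', ?_⟩
  rw [← hy]
  have h9 : (((Nat.card k : ℕ) : R) + 1) • (y - (r₀ • DD K hσ χ + (XR r (ep x 1) m'' - m''))) = 0 := by
    rw [smul_sub, ← h2, h8, map_add, map_smul, map_smul]
    have h10 := hX.zz (DD K hσ χ) hB.DF
    have h11 : XR r (ep x 1) (ZZ (Nat.card k) (XR r (ep x 1)) (DD K hσ χ)) =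
        ZZ (Nat.card k) (XR r (ep x 1)) (DD K hσ χ) +
          (((Nat.card k : ℕ) : R) + 1) • DD K hσ χ := by
      rw [← h10]
      abel
    rw [h11, smul_add, smul_add, smul_sub, smul_comm r₀ (((Nat.card k : ℕ) : R) + 1)]
    abel
  have hn : algebraMap R K (((Nat.card k : ℕ) : R) + 1) ≠ 0 := by
    rw [map_add, map_natCast, map_one]
    exact hC.nz
  funext g
  have h12 := congrFun h9 g
  rw [Pi.smul_apply, Algebra.smul_def, Pi.zero_apply] at h12
  have h13 := (mul_eq_zero.1 h12).resolve_left hn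
  rw [Pi.sub_apply] at h13
  exact sub_eq_zero.1 h13

end Pool.Agent.Helper69.GUM
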