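import Pool.Agent.Helper60.GUM.St

/-!
Project GUM (MP_0bd1d1_al), module STB: the second stage.
-/

set_option autoImplicit false

open Module OG GUM

namespace Pool.Agent.Helper69.GUM

section geo

variable {k F X : Type*} [Field k] [Field F] [Algebra k F] [AddCommGroup X] [Module F X]
  {σ : F ≃ₐ[k] F} {B : HForm σ X}

private theorem pp_le_STB {Y : Submodule F X} {p p' : X} : _root_.GUM.pp B Y p p' ≤ Y :=
  inf_le_left

private theorem smul_jn_STB (g : X ≃ₗ[F] X) {p : X} (hg : g p = p) (A : Submodule F X) :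
    g • _root_.GUM.jn p A = _root_.GUM.jn p (g • A) := by
  change g • (Submodule.span F {p} ⊔ A) = Submodule.span F {p} ⊔ g • A
  rw [smul_def, smul_def, Submodule.map_sup, Submodule.map_span, Set.image_singleton]
  rw [LinearEquiv.coe_coe, hg]

private theorem Stb_mono_STB {H H' : Set (X ≃ₗ[F] X)} {S : Set (Submodule F X)}
    (h : Stb H S) (hH : H' ⊆ H) : Stb H' S :=
  fun g hg => h g (hH hg)

private theorem inv_fix_STB {g : X ≃ₗ[F] X} {x : X} (h : g x = x) : g⁻¹ x = x := by
  have h1 : g⁻¹ (g x) = x := g.symm_apply_apply x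
  rwa [h] at h1

private theorem inv_of_STB {g : X ≃ₗ[F] X} {x y : X} (h : g x = y) : g⁻¹ y = x := by
  have h1 : g⁻¹ (g x) = x := g.symm_apply_apply x
  rwa [h] at h1

/-- Elements of `Tg B y` fix subspaces orthogonal to `y`. -/
private theorem Tg_fix_STB {y : X} {g : X ≃ₗ[F] X} (hg : g ∈ _root_.GUM.Tg B y)
    {A : Submodule F X} (hA : ∀ a ∈ A, B.f a y = 0) : g • A = A := by
  obtain ⟨c, _, hc⟩ := hg
  have hfix : ∀ a ∈ A, g a = a := by
    intro a ha
    rw [hc a, hA a ha, mul_zero, zero_smul, add_zero]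
  ext x
  rw [mem_smul]
  constructor
  · rintro ⟨w, hw, rfl⟩
    rw [hfix w hw]
    exact hw
  · intro hx
    exact ⟨x, hx, hfix x hx⟩

variable (R K : Type*) [Field K] [CommRing R] [Algebra R K]

/-- Functions supported on subspaces orthogonal to `y` are invariant under `Tg B y`. -/
private theorem supS_IT_STB {y : X} {S : Set (Submodule F X)}
    (hS : ∀ A ∈ S, ∀ a ∈ A, B.f a y = 0) {f : Submodule F X → K} (hf : f ∈ supS R K S) :
    f ∈ _root_.GUM.IT R K B y := by
  intro g hg
  funext W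
  rw [act_apply]
  by_cases hW : W ∈ S
  · have h1 : g⁻¹ • W = W := by
      rw [inv_smul_eq_iff]
      exact (Tg_fix_STB hg (hS W hW)).symm
    rw [h1]
  · rw [hf W hW]
    apply hf
    intro hcon
    apply hW
    have h1 : g • (g⁻¹ • W) = g⁻¹ • W := Tg_fix_STB hg (hS _ hcon)
    rw [smul_inv_smul] at h1
    rw [h1]
    exact hcon

variable [IsLocalRing R]

private theorem through_STB (hG : StGrp B) (hH : StHyp B) (hT : StTyp B) {m : ℕ}
    (hIH : _root_.GUM.IH R K B m) {Y : Submodule F X} {p p' : X} (hY : _root_.GUM.ND B Y)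
    (h : _root_.GUM.HP B Y p p') (hm : finrank F (_root_.GUM.pp B Y p p') < m) (j : ℕ) :
    Bd R K (_root_.GUM.Gr B (_root_.GUM.pp B Y p p')) {A | A ∈ _root_.GUM.Sk B Y j ∧ p ∈ A}
      (3 ^ finrank F (_root_.GUM.pp B Y p p')) := by
  have h1 := hIH (_root_.GUM.pp B Y p p') hm (hH.nd Y p p' h hY) (j - 1)
  have h2 := Bd_image (_root_.GUM.jn p) (hG.stb (_root_.GUM.pp B Y p p') (j - 1))
    (fun g hg w _ => (smul_jn_STB g (hG.fix Y p p' g hg).1 w).symm) h1
  refine Bd_mono h2 subset_rfl ?_ le_rfl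
  rintro A ⟨hA, hp⟩
  obtain ⟨i, hi, A', hA', hAA⟩ := hT.t1 Y p p' j A h hA hp
  subst hi
  exact ⟨A', hA', hAA.symm⟩

/-- STB: the second stage. -/
theorem hStb [FiniteDimensional F X] (hG : StGrp B) (hW : StWit B) (hH : StHyp B)
    (hT : StTyp B) (χ : AddChar F R) (hWt : StWts R K B χ) (hV : StVan R K B χ)
    (hC : StClf R K B χ) : StStb R K B := by
  classical
  intro m hIH Z y y' hZ h hm j
  obtain ⟨Z', hZ'⟩ : ∃ Z', Z' = _root_.GUM.pp B Z y y' := ⟨_, rfl⟩
  have hfr : finrank F Z' + 2 = finrank F Z := by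
    rw [hZ']
    exact hH.fr Z y y' h
  have hZ'nd : _root_.GUM.ND B Z' := by
    rw [hZ']
    exact hH.nd Z y y' h hZ
  have hle : Z' ≤ Z := by
    rw [hZ']
    exact pp_le_STB
  obtain ⟨S, hS⟩ : ∃ S : Set (Submodule F X),
    S = {A | A ∈ _root_.GUM.Sk B Z j ∧ y ∉ A ∧ ∀ a ∈ A, B.f a y = 0} := ⟨_, rfl⟩
  have hSo : ∀ A ∈ S, ∀ a ∈ A, B.f a y = 0 := by
    intro A hA
    rw [hS] at hA
    exact hA.2.2
  rw [← hS]
  intro N hN r
  have hNI : ∀ i, N i ⊓ _root_.GUM.IT R K B y = N i := by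
    intro i
    apply inf_eq_left.2
    intro f hf
    exact supS_IT_STB R K hSo (fun W hW => hN.supp i f hf W hW)
  have hstep : steps N r = steps (fun i => N i ⊓ _root_.GUM.IT R K B y) r := by
    have h1 : (fun i => N i ⊓ _root_.GUM.IT R K B y) = N := funext hNI
    rw [h1]
  rw [hstep]
  have hsub : _root_.GUM.Gr B Z' ⊆ _root_.GUM.GrF B Z y := by
    intro g hg
    exact ⟨hG.mono Z' Z hle hg, (hG.fix Z y y' g (hZ' ▸ hg)).1⟩
  have heH : ∀ v c, Adm B v.1 c → _root_.GUM.eV h v c ∈ _root_.GUM.GrF B Z y := by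
    intro v c hc
    have hv := (_root_.GUM.mem_pp.1 v.2)
    refine ⟨hG.heis Z y v.1 c h.q1 hv.2.1 h.m1 hv.1 hc, ?_⟩
    change hE B y v.1 c h.q1 hv.2.1 y = y
    rw [hE_apply, h.q1, B.swap0 hv.2.1]
    simp
  have h10 : ∃ (H₀ : Set (X ≃ₗ[F] X)) (B₀ : Set (Submodule F X)),
      Bd R K H₀ B₀ (3 ^ (finrank F Z - 2)) ∧ H₀ ⊆ _root_.GUM.GrF B Z y ∧ Stb H₀ B₀ ∧
      (∀ g ∈ H₀, ∀ f : Submodule F X → K, f ∈ WU K h χ 0 → act g f ∈ WU K h χ 0) ∧
      (∀ f : Submodule F X → K, f ∈ WU K h χ 0 → f ∈ supS R K S →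
        (∀ w ∈ B₀, f w = 0) → f = 0) := by
    refine ⟨_root_.GUM.Gr B Z', _root_.GUM.Sk B Z' j, ?_, hsub, hG.stb Z' j, ?_, ?_⟩
    · have h1 := hIH Z' (by omega) hZ'nd j
      rwa [show finrank F Z - 2 = finrank F Z' by omega]
    · intro g hg f hf
      have h1 := hWt.cj Z y y' h 0 f hf g⁻¹ (hZ' ▸ hG.inv Z' g hg)
      rw [inv_inv, map_zero] at h1
      exact h1
    · intro f hf hs h2
      refine hV.v2 Z y y' h 0 f j hZ hf (hS ▸ hs) ?_
      rw [← hZ']
      exact h2
  have hzero : ∀ x : X, x = 0 → ∃ g ∈ _root_.GUM.GrF B Z y, g⁻¹ ∈ _root_.GUM.GrF B Z y ∧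
      ∀ f : Submodule F X → K, f ∈ WU K h χ x → act g⁻¹ f ∈ WU K h χ 0 := by
    intro x hx
    subst hx
    refine ⟨1, hsub (hG.one Z'), by rw [inv_one]; exact hsub (hG.one Z'), ?_⟩
    intro f hf
    rw [inv_one, act_one]
    exact hf
  have hvan : ∀ x ∈ Z', ∀ f : Submodule F X → K, f ∈ WU K h χ x → f ∈ supS R K S →
      (∀ A ∈ _root_.GUM.Sk B Z' j, x ∈ A → f A = 0) → f = 0 := by
    intro x hx f hf hs h2
    refine hV.v2 Z y y' h x f j hZ hf (hS ▸ hs) ?_
    rw [← hZ']
    intro A hA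
    by_contra h0
    have h3 : A ≤ _root_.GUM.pp B Z y y' := by
      rw [← hZ']
      exact hA.1
    have h4 := hWt.w2 Z y y' h x f hZ (hZ' ▸ hx) hf A h3 h0
    exact h0 (h2 A hA h4)
  by_cases hex : ∃ z ∈ Z', z ≠ 0 ∧ B.f z z = 0
  · obtain ⟨z, hz, hz0, hzq⟩ := hex
    obtain ⟨z', hzz⟩ := hH.exHP Z' z hZ'nd hz hz0 hzq
    have hfr2 : finrank F (_root_.GUM.pp B Z' z z') + 2 = finrank F Z' := hH.fr Z' z z' hzz
    have hz2 : _root_.GUM.pp B Z' z z' ≤ Z' := pp_le_STB
    have main := hC Z y y' h (_root_.GUM.GrF B Z y) S N hZ hN heH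
      (fun i => match i with
        | 0 => {0}
        | 1 => {z}
        | 2 => ∅)
      (fun i => match i with
        | 0 => 3 ^ (finrank F Z - 2)
        | 1 => 3 ^ (finrank F Z - 4)
        | 2 => 0) ?_ ?_ r
    · rw [Fin.sum_univ_three] at main
      simpa using main
    · intro i
      match i with
      | 0 =>
        intro l hl
        have hl' : l = 0 := by simpa using hl
        rw [hl']
        exact h10
      | 1 =>
        intro l hl
        have hl' : l = z := by simpa using hl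
        rw [hl']
        refine ⟨_root_.GUM.Gr B (_root_.GUM.pp B Z' z z'),
          {A | A ∈ _root_.GUM.Sk B Z' j ∧ z ∈ A}, ?_, ?_, ?_, ?_, ?_⟩
        · have h1 := through_STB R K hG hH hT hIH hZ'nd hzz (by omega) j
          have e : finrank F Z - 4 = finrank F (_root_.GUM.pp B Z' z z') := by omega
          change Bd R K (_root_.GUM.Gr B (_root_.GUM.pp B Z' z z'))
            {A | A ∈ _root_.GUM.Sk B Z' j ∧ z ∈ A} (3 ^ (finrank F Z - 4))
          rw [e]
          exact h1
        · exact fun g hg => hsub (hG.mono _ _ hz2 hg)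
        · have h3 : Stb (_root_.GUM.GrF B Z' z) {A | A ∈ _root_.GUM.Sk B Z' j ∧ z ∈ A} :=
            hG.smem Z' z _ (Stb_mono_STB (hG.stb Z' j) (fun g hg => hg.1))
          exact Stb_mono_STB h3 (fun g hg =>
            ⟨hG.mono _ _ hz2 hg, (hG.fix Z' z z' g hg).1⟩)
        · intro g hg f hf
          have hgi := hG.inv _ g hg
          have h1 := hWt.cj Z y y' h z f hf g⁻¹ (hZ' ▸ hG.mono _ _ hz2 hgi)
          rw [inv_inv, (hG.fix Z' z z' g hg).1] at h1
          exact h1
        · intro f hf hs h2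
          exact hvan z hz f hf hs (fun A hA hzA => h2 A ⟨hA, hzA⟩)
      | 2 =>
        intro l hl
        simp at hl
    · intro x hx
      rw [← hZ'] at hx
      by_cases hx0 : x = 0
      · right
        exact ⟨0, 0, by simp, hzero x hx0⟩
      · by_cases hxq : B.f x x = 0
        · right
          obtain ⟨g, hg, hgz⟩ := hW Z' hZ'nd z hz x hx hz0 hx0 (by rw [hzq, hxq])
          refine ⟨1, z, by simp, g, hsub hg, hsub (hG.inv Z' g hg), ?_⟩
          intro f hf
          have h1 := hWt.cj Z y y' h x f hf g (hZ' ▸ hg)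
          rw [inv_of_STB hgz] at h1
          exact h1
        · left
          intro f hf hs
          refine hvan x hx f hf hs ?_
          intro A hA hxA
          exact absurd (hA.2.2 x hxA x hxA) hxq
  · push Not at hex
    have main := hC Z y y' h (_root_.GUM.GrF B Z y) S N hZ hN heH
      (fun i => match i with
        | 0 => {0}
        | 1 => ∅
        | 2 => ∅)
      (fun i => match i with
        | 0 => 3 ^ (finrank F Z - 2)
        | 1 => 0
        | 2 => 0) ?_ ?_ r
    · rw [Fin.sum_univ_three] at main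
      refine le_trans main ?_
      simp
    · intro i
      match i with
      | 0 =>
        intro l hl
        have hl' : l = 0 := by simpa using hl
        rw [hl']
        exact h10
      | 1 =>
        intro l hl
        simp at hl
      | 2 =>
        intro l hl
        simp at hl
    · intro x hx
      rw [← hZ'] at hx
      by_cases hx0 : x = 0
      · right
        exact ⟨0, 0, by simp, hzero x hx0⟩
      · left
        intro f hf hs
        refine hvan x hx f hf hs ?_
        intro A hA hxA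
        exact absurd (hA.2.2 x hxA x hxA) (hex x hx hx0)

end geo

end Pool.Agent.Helper69.GUM
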